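import Pool.Agent.PB.VandR

/-!
# Many strands inside: Phragmen - Lindelof and the Schwarz lemma in several variables (helper3, DUAL D10)

`f` is a function of finitely many complex variables, separately analytic in a neighbourhood of the strip
`|Re z_a| ≤ δ`, bounded there, and `‖f z‖ ≤ A ∏ g (Im z_a)` on the distinguished boundary `|Re z_a| = δ`,
where `g` grows at most like `exp (a0 |t|)`, `a0 δ < π / 2`.

* `pl_one`, **`pl_many`** : the bound on the whole polystrip, with the factor `(2 / cos (a0 δ)) ^ q`;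
* **`ins_many`** : if moreover `f` has (at least) `N / 2` zeros in every variable separately, every variable
  inside (`|Im| ≤ (1 - ε) x1 log N`) gives the factor `N ^ (-e)`.
-/

set_option autoImplicit false

noncomputable section

open Complex Filter Topology

namespace DUI

/-- growth of the weight -/
structure GrW (a0 : ℝ) (g : ℝ → ℝ) : Prop where
  pos : ∀ t, 0 < g t
  gr : ∀ t s, g (t + s) ≤ g t * Real.exp (a0 * |s|)

theorem cosad_pos {a δ : ℝ} (ha : 0 ≤ a) (hδ : 0 ≤ δ) (had : a * δ < Real.pi / 2) :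
    0 < Real.cos (a * δ) := Real.cos_pos_of_mem_Ioo
  ⟨by have := Real.pi_pos; nlinarith [mul_nonneg ha hδ], had⟩

/-- `cos (a (z - i t0))` on the strip -/
theorem cos_lower {a δ : ℝ} (ha : 0 ≤ a) (hδ : 0 ≤ δ) (had : a * δ < Real.pi / 2) {z : ℂ} {t0 : ℝ}
    (hz : |z.re| ≤ δ) : Real.cos (a * δ) * Real.cosh (a * (z.im - t0)) ≤
      ‖Complex.cos (a * (z - t0 * I))‖ := by
  have h1 : (a : ℂ) * (z - t0 * I) = ((a * z.re : ℝ) : ℂ) + ((a * (z.im - t0) : ℝ) : ℂ) * I := by
    apply Complex.ext <;> simp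
  have h2 : ‖Complex.cos (a * (z - t0 * I))‖ ^ 2 =
      Real.cos (a * z.re) ^ 2 + Real.sinh (a * (z.im - t0)) ^ 2 := by
    have e0 : Complex.cos (a * (z - t0 * I)) =
        ((Real.cos (a * z.re) * Real.cosh (a * (z.im - t0)) : ℝ) : ℂ) +
          ((-(Real.sin (a * z.re) * Real.sinh (a * (z.im - t0))) : ℝ) : ℂ) * I := by
      rw [h1, Complex.cos_add_mul_I, ← Complex.ofReal_cos, ← Complex.ofReal_sin,
        ← Complex.ofReal_cosh, ← Complex.ofReal_sinh]
      push_cast
      ring
    rw [e0, ← Complex.normSq_eq_norm_sq, Complex.normSq_add_mul_I]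
    have h3 := Real.sin_sq_add_cos_sq (a * z.re)
    have h4 := Real.cosh_sq (a * (z.im - t0))
    have h5 : Real.sin (a * z.re) ^ 2 = 1 - Real.cos (a * z.re) ^ 2 := by linarith
    calc _ = Real.cos (a * z.re) ^ 2 * Real.cosh (a * (z.im - t0)) ^ 2 +
          Real.sin (a * z.re) ^ 2 * Real.sinh (a * (z.im - t0)) ^ 2 := by ring
      _ = _ := by rw [h4, h5]; ring
  have h3 : Real.cos (a * δ) ≤ Real.cos (a * z.re) := by
    rw [← Real.cos_abs (a * z.re)]
    apply Real.cos_le_cos_of_nonneg_of_le_pi (abs_nonneg _)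
    · have := Real.pi_pos
      linarith
    · rw [abs_mul, abs_of_nonneg ha]
      exact mul_le_mul_of_nonneg_left hz ha
  have h0 := cosad_pos ha hδ had
  have h5 : Real.cos (a * δ) ≤ 1 := Real.cos_le_one _
  apply (sq_le_sq₀ (by positivity) (norm_nonneg _)).1
  rw [h2, mul_pow, Real.cosh_sq]
  have h6 : Real.cos (a * δ) ^ 2 ≤ Real.cos (a * z.re) ^ 2 := by gcongr
  have h7 : Real.cos (a * δ) ^ 2 ≤ 1 := by nlinarith
  have h8 := sq_nonneg (Real.sinh (a * (z.im - t0)))
  nlinarith

/-- **Phragmen - Lindelof in one variable, with a weight of exponential growth** -/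
theorem pl_one {a0 δ : ℝ} (ha : 0 ≤ a0) (hδ : 0 < δ) (had : a0 * δ < Real.pi / 2) {g : ℝ → ℝ}
    (hg : GrW a0 g) {F : ℂ → ℂ} {A B : ℝ} (hA : 0 ≤ A)
    (hd : ∀ z : ℂ, |z.re| ≤ δ → DifferentiableAt ℂ F z) (hB : ∀ z : ℂ, |z.re| ≤ δ → ‖F z‖ ≤ B)
    (hb : ∀ z : ℂ, |z.re| = δ → ‖F z‖ ≤ A * g z.im) (z : ℂ) (hz : |z.re| ≤ δ) :
    ‖F z‖ ≤ 2 / Real.cos (a0 * δ) * A * g z.im := by
  have h0 := cosad_pos ha hδ.le had
  obtain ⟨t0, ht0⟩ : ∃ t0, t0 = z.im := ⟨_, rfl⟩
  set H : ℂ → ℂ := fun w => Complex.cos (a0 * (w - t0 * I)) with hH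
  have hlow : ∀ w : ℂ, |w.re| ≤ δ → Real.cos (a0 * δ) ≤ ‖H w‖ := fun w hw => by
    refine le_trans ?_ (cos_lower ha hδ.le had (t0 := t0) hw)
    have := Real.one_le_cosh (a0 * (w.im - t0))
    nlinarith
  have hne : ∀ w : ℂ, |w.re| ≤ δ → H w ≠ 0 := fun w hw => by
    have := hlow w hw
    exact norm_pos_iff.1 (by linarith)
  have hdH : ∀ w : ℂ, |w.re| ≤ δ → DifferentiableAt ℂ (fun w => F w / H w) w := fun w hw => by
    have h1 : DifferentiableAt ℂ H w := by
      rw [hH]
      fun_prop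
    exact (hd w hw).div h1 (hne w hw)
  have hcl : closure (re ⁻¹' Set.Ioo (-δ) δ) ⊆ {w : ℂ | |w.re| ≤ δ} := by
    refine closure_minimal (fun w hw => ?_) (isClosed_le (continuous_re.abs) continuous_const)
    rw [Set.mem_preimage, Set.mem_Ioo] at hw
    exact abs_le.2 ⟨hw.1.le, hw.2.le⟩
  have hC : ∀ w : ℂ, |w.re| = δ → ‖F w / H w‖ ≤ 2 / Real.cos (a0 * δ) * A * g t0 := fun w hw => by
    have h1 := hb w hw
    have h2 := cos_lower ha hδ.le had (t0 := t0) hw.le
    have h3 : g w.im ≤ g t0 * Real.exp (a0 * |w.im - t0|) := by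
      have := hg.gr t0 (w.im - t0)
      rwa [add_sub_cancel] at this
    have h4 : Real.exp (a0 * |w.im - t0|) ≤ 2 * Real.cosh (a0 * (w.im - t0)) := by
      rw [← Real.cosh_abs (a0 * (w.im - t0)), abs_mul, abs_of_nonneg ha, Real.cosh_eq]
      have := Real.exp_pos (-(a0 * |w.im - t0|))
      linarith
    have hg0 := hg.pos t0
    have hc0 : 0 < Real.cosh (a0 * (w.im - t0)) := Real.cosh_pos _
    have hH0 : 0 < ‖H w‖ := norm_pos_iff.2 (hne w hw.le)
    rw [norm_div, div_le_iff₀ hH0]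
    calc ‖F w‖ ≤ A * g w.im := h1
      _ ≤ A * (g t0 * (2 * Real.cosh (a0 * (w.im - t0)))) := by
        gcongr
        exact h3.trans (by gcongr)
      _ = 2 / Real.cos (a0 * δ) * A * g t0 *
          (Real.cos (a0 * δ) * Real.cosh (a0 * (w.im - t0))) := by
        field_simp
      _ ≤ _ := by gcongr
  have key : ‖F z / H z‖ ≤ 2 / Real.cos (a0 * δ) * A * g t0 := by
    refine PhragmenLindelof.vertical_strip (a := -δ) (b := δ) (f := fun w => F w / H w) ?_ ?_ ?_ ?_
      (abs_le.1 hz).1 (abs_le.1 hz).2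
    · refine DifferentiableOn.diffContOnCl fun w hw => ?_
      exact (hdH w (hcl hw)).differentiableWithinAt
    · refine ⟨0, ?_, 0, ?_⟩
      · have := Real.pi_pos
        have : 0 < δ - -δ := by linarith
        positivity
      · rw [Asymptotics.isBigO_iff]
        refine ⟨B / Real.cos (a0 * δ), ?_⟩
        rw [Filter.eventually_inf_principal]
        refine Filter.Eventually.of_forall fun w hw => ?_
        have hw' : |w.re| ≤ δ := hcl (subset_closure hw)
        have hH0 : 0 < ‖H w‖ := norm_pos_iff.2 (hne w hw')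
        have hB0 : 0 ≤ B := (norm_nonneg _).trans (hB w hw')
        rw [norm_div, div_le_iff₀ hH0]
        have h1 := hB w hw'
        have h2 := hlow w hw'
        have e : B / Real.cos (a0 * δ) * ‖Real.exp (0 * Real.exp (0 * |w.im|))‖ * ‖H w‖ =
            B / Real.cos (a0 * δ) * ‖H w‖ := by
          rw [zero_mul, Real.exp_zero, norm_one, mul_one]
        rw [e]
        calc ‖F w‖ ≤ B := h1
          _ = B / Real.cos (a0 * δ) * Real.cos (a0 * δ) := by field_simp
          _ ≤ _ := by gcongr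
    · intro w hw
      exact hC w (by rw [hw, abs_neg, abs_of_pos hδ])
    · intro w hw
      exact hC w (by rw [hw, abs_of_pos hδ])
  have hHz : ‖H z‖ ≤ 1 := by
    have e : (a0 : ℂ) * (z - t0 * I) = ((a0 * z.re : ℝ) : ℂ) := by
      rw [ht0]
      apply Complex.ext <;> simp
    rw [hH]
    simp only
    rw [e, ← Complex.ofReal_cos, Complex.norm_real]
    exact Real.abs_cos_le_one _
  have hHz0 : 0 < ‖H z‖ := norm_pos_iff.2 (hne z hz)
  rw [norm_div, div_le_iff₀ hHz0] at key
  rw [← ht0]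
  refine key.trans ?_
  have : 0 ≤ 2 / Real.cos (a0 * δ) * A * g t0 := by
    have := hg.pos t0
    positivity
  nlinarith

variable {κ : Type} [Fintype κ] [DecidableEq κ]

/-- separately analytic near the polystrip -/
def SepA (δ : ℝ) (f : (κ → ℂ) → ℂ) : Prop := ∀ z : κ → ℂ, (∀ a, |(z a).re| ≤ δ) → ∀ a, ∀ w : ℂ,
  |w.re| ≤ δ → DifferentiableAt ℂ (fun v => f (Function.update z a v)) w

omit [Fintype κ] in
theorem upd_re {δ : ℝ} {z : κ → ℂ} (hz : ∀ a, |(z a).re| ≤ δ) (a : κ) {w : ℂ} (hw : |w.re| ≤ δ) :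
    ∀ b, |(Function.update z a w b).re| ≤ δ := by
  intro b
  rcases eq_or_ne b a with rfl | h
  · rwa [Function.update_self]
  · rw [Function.update_of_ne h]
    exact hz b

/-- **Phragmen - Lindelof from the distinguished boundary** -/
theorem pl_many {a0 δ : ℝ} (ha : 0 ≤ a0) (hδ : 0 < δ) (had : a0 * δ < Real.pi / 2) {g : ℝ → ℝ}
    (hg : GrW a0 g) {f : (κ → ℂ) → ℂ} {A B : ℝ} (hA : 0 ≤ A) (hd : SepA δ f)
    (hB : ∀ z : κ → ℂ, (∀ a, |(z a).re| ≤ δ) → ‖f z‖ ≤ B)
    (hb : ∀ z : κ → ℂ, (∀ a, |(z a).re| = δ) → ‖f z‖ ≤ A * ∏ a, g (z a).im) (z : κ → ℂ)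
    (hz : ∀ a, |(z a).re| ≤ δ) :
    ‖f z‖ ≤ A * (2 / Real.cos (a0 * δ)) ^ Fintype.card κ * ∏ a, g (z a).im := by
  have h0 := cosad_pos ha hδ.le had
  have key : ∀ s : Finset κ, ∀ z : κ → ℂ, (∀ a, |(z a).re| ≤ δ) → (∀ a, a ∉ s → |(z a).re| = δ) →
      ‖f z‖ ≤ A * (2 / Real.cos (a0 * δ)) ^ s.card * ∏ a, g (z a).im := by
    intro s
    induction s using Finset.induction_on with
    | empty =>
      intro z _ h
      rw [Finset.card_empty, pow_zero, mul_one]
      exact hb z fun a => h a (Finset.notMem_empty a)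
    | insert b s hbs ih =>
      intro z hz h
      have hA' : 0 ≤ A * (2 / Real.cos (a0 * δ)) ^ s.card * ∏ a ∈ Finset.univ.erase b, g (z a).im := by
        have : 0 ≤ ∏ a ∈ Finset.univ.erase b, g (z a).im :=
          Finset.prod_nonneg fun a _ => (hg.pos _).le
        positivity
      have h1 := pl_one ha hδ had hg (F := fun v => f (Function.update z b v)) (B := B) hA'
        (fun w hw => hd z hz b w hw) (fun w hw => hB _ (upd_re hz b hw)) ?_ (z b) (hz b)
      · rw [Function.update_eq_self] at h1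
        refine h1.trans (le_of_eq ?_)
        rw [Finset.card_insert_of_notMem hbs, pow_succ,
          ← Finset.mul_prod_erase Finset.univ (fun a => g (z a).im) (Finset.mem_univ b)]
        ring
      · intro w hw
        have h2 := ih (Function.update z b w) (upd_re hz b hw.le) ?_
        · refine h2.trans (le_of_eq ?_)
          rw [← Finset.mul_prod_erase Finset.univ (fun a => g (Function.update z b w a).im)
            (Finset.mem_univ b), Function.update_self]
          have e : ∏ a ∈ Finset.univ.erase b, g (Function.update z b w a).im =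
              ∏ a ∈ Finset.univ.erase b, g (z a).im :=
            Finset.prod_congr rfl fun a ha => by
              rw [Function.update_of_ne (Finset.ne_of_mem_erase ha)]
          rw [e]
          ring
        · intro a has
          rcases eq_or_ne a b with rfl | hab
          · rwa [Function.update_self]
          · rw [Function.update_of_ne hab]
            exact h a fun h3 => (Finset.mem_insert.1 h3).elim hab has
  have := key Finset.univ z hz fun a h => absurd (Finset.mem_univ a) h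
  rwa [Finset.card_univ] at this

/-- **many strands**: every variable inside gives `N ^ (-e)` -/
theorem ins_many {a0 δ ρ b0 y0 x1 : ℝ} (ha : 0 ≤ a0) (hδ : 0 < δ) (had : a0 * δ < Real.pi / 2)
    (C e : ℝ) {ε : ℝ} (hρ0 : 0 ≤ ρ) (hρ : ρ < δ) (hb00 : 0 ≤ b0) (hb0 : b0 < δ) (hy0 : 0 ≤ y0)
    (hε : 0 < ε) (hε1 : ε < 1) (hx1 : 0 < x1) (hx2 : x1 ≤ 2 * δ / Real.pi) :
    ∃ N0 : ℕ, ∀ N ≥ N0, ∀ (κ : Type) [Fintype κ] [DecidableEq κ] (ι : Type) [Fintype ι] (c : ι → ℂ)
      (g : ℝ → ℝ) (f : (κ → ℂ) → ℂ) (A B : ℝ), 0 ≤ A →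
      N ≤ 2 * Fintype.card ι → (∀ j, |(c j).re| ≤ b0 ∧ |(c j).im| ≤ y0) →
      GrW a0 g → (∀ t, 1 ≤ g t) → (∀ t, |t| ≤ x1 * Real.log N + y0 → g t ≤ (N : ℝ) ^ C) →
      SepA δ f →
      (∀ z : κ → ℂ, (∀ a, |(z a).re| ≤ δ) → ‖f z‖ ≤ B) →
      (∀ z : κ → ℂ, (∀ a, |(z a).re| = δ) → ‖f z‖ ≤ A * ∏ a, g (z a).im) →
      (∀ z : κ → ℂ, (∀ a, |(z a).re| ≤ δ) → ∀ a, ∃ Q : ℂ → ℂ,
        (∀ w : ℂ, |w.re| ≤ δ → DifferentiableAt ℂ Q w) ∧
        ∀ w : ℂ, |w.re| ≤ δ → f (Function.update z a w) = (∏ j, (w - c j)) * Q w) →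
      ∀ z : κ → ℂ, (∀ a, |(z a).re| ≤ δ) →
        ‖f z‖ ≤ A * (2 / Real.cos (a0 * δ)) ^ Fintype.card κ *
          ∏ a, (g (z a).im * if |(z a).re| ≤ ρ ∧ |(z a).im| ≤ (1 - ε) * (x1 * Real.log N) then
            (N : ℝ) ^ (-e) else 1) := by
  have h0 := cosad_pos ha hδ.le had
  obtain ⟨N0, hN0⟩ := PBV.small_Nx (ρ := ρ) (b0 := b0) (y0 := y0) (x1 := x1) C e hδ hρ0 hρ hb00 hb0
    hy0 hε hε1 hx1 hx2
  refine ⟨max N0 1, fun N hN κ _ _ ι _ c g f A B hA hcard hc hg hg1 hgN hd hB hb hz0 z hz => ?_⟩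
  have hNN : N0 ≤ N := (le_max_left _ _).trans hN
  have hN1 : 1 ≤ N := (le_max_right _ _).trans hN
  have hNpos : (0 : ℝ) < N := by exact_mod_cast hN1
  have hpl := fun z hz => pl_many ha hδ had hg hA hd hB hb z hz
  set A' := A * (2 / Real.cos (a0 * δ)) ^ Fintype.card κ with hA'
  have hA'0 : 0 ≤ A' := by positivity
  set J : ℂ → ℝ := fun w => if |w.re| ≤ ρ ∧ |w.im| ≤ (1 - ε) * (x1 * Real.log N) then
    (N : ℝ) ^ (-e) else 1 with hJ
  have hJ0 : ∀ w, 0 < J w := fun w => by
    rw [hJ]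
    simp only
    split_ifs
    · exact Real.rpow_pos_of_pos hNpos _
    · exact one_pos
  have key : ∀ s : Finset κ, ∀ z : κ → ℂ, (∀ a, |(z a).re| ≤ δ) →
      ‖f z‖ ≤ A' * (∏ a, g (z a).im) * ∏ a ∈ s, J (z a) := by
    intro s
    induction s using Finset.induction_on with
    | empty =>
      intro z hz
      rw [Finset.prod_empty, mul_one]
      exact hpl z hz
    | insert b s hbs ih =>
      intro z hz
      rw [Finset.prod_insert hbs]
      by_cases hin : |(z b).re| ≤ ρ ∧ |(z b).im| ≤ (1 - ε) * (x1 * Real.log N)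
      swap
      · have e1 : J (z b) = 1 := by
          rw [hJ]
          simp only
          rw [if_neg hin]
        rw [e1, one_mul]
        exact ih z hz
      have e1 : J (z b) = (N : ℝ) ^ (-e) := by
        rw [hJ]
        simp only
        rw [if_pos hin]
      rw [e1]
      -- the other variables
      set R := A' * (∏ a ∈ Finset.univ.erase b, g (z a).im) * ∏ a ∈ s, J (z a) with hR
      have hR0 : 0 ≤ R := by
        have h1 : 0 ≤ ∏ a ∈ Finset.univ.erase b, g (z a).im :=
          Finset.prod_nonneg fun a _ => (hg.pos _).le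
        have h2 : 0 ≤ ∏ a ∈ s, J (z a) := Finset.prod_nonneg fun a _ => (hJ0 _).le
        positivity
      have hF : ∀ w : ℂ, |w.re| ≤ δ → ‖f (Function.update z b w)‖ ≤ R * g w.im := by
        intro w hw
        have h1 := ih (Function.update z b w) (upd_re hz b hw)
        refine h1.trans (le_of_eq ?_)
        rw [← Finset.mul_prod_erase Finset.univ (fun a => g (Function.update z b w a).im)
            (Finset.mem_univ b), Function.update_self]
        have e2 : ∏ a ∈ Finset.univ.erase b, g (Function.update z b w a).im =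
            ∏ a ∈ Finset.univ.erase b, g (z a).im :=
          Finset.prod_congr rfl fun a ha => by
            rw [Function.update_of_ne (Finset.ne_of_mem_erase ha)]
        have e3 : ∏ a ∈ s, J (Function.update z b w a) = ∏ a ∈ s, J (z a) :=
          Finset.prod_congr rfl fun a ha => by
            rw [Function.update_of_ne (by rintro rfl; exact hbs ha)]
        rw [e2, e3, hR]
        ring
      have hgoal : ‖f z‖ ≤ R * (N : ℝ) ^ (-e) := by
        rcases hR0.eq_or_lt with hR1 | hR1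
        · have h1 := hF (z b) (hz b)
          rw [Function.update_eq_self, ← hR1, zero_mul] at h1
          rw [← hR1, zero_mul]
          exact h1
        obtain ⟨Q, hQ1, hQ2⟩ := hz0 z hz b
        have h1 := hN0 N hNN ι c (fun w => f (Function.update z b w) / (R : ℂ))
          (fun w => Q w / (R : ℂ)) hcard hc (fun w hw => (hQ1 w hw.1).div_const _)
          (fun w hw => by rw [hQ2 w hw.1]; ring) (fun w hw => ?_) (z b) hin.1 hin.2
        · simp only [Function.update_eq_self] at h1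
          rw [norm_div, Complex.norm_real, Real.norm_of_nonneg hR1.le, div_le_iff₀ hR1] at h1
          linarith
        · rw [norm_div, Complex.norm_real, Real.norm_of_nonneg hR1.le, div_le_iff₀ hR1]
          have h2 := hF w hw.1
          have h3 := hgN w.im hw.2
          nlinarith
      refine hgoal.trans ?_
      have h4 : R * (N : ℝ) ^ (-e) ≤ R * g (z b).im * (N : ℝ) ^ (-e) := by
        have h5 := hg1 (z b).im
        have h6 : 0 < (N : ℝ) ^ (-e) := Real.rpow_pos_of_pos hNpos _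
        have h7 : R * 1 ≤ R * g (z b).im := mul_le_mul_of_nonneg_left h5 hR0
        nlinarith
      refine h4.trans (le_of_eq ?_)
      rw [hR, ← Finset.mul_prod_erase Finset.univ (fun a => g (z a).im) (Finset.mem_univ b)]
      ring
  have := key Finset.univ z hz
  rw [Finset.prod_mul_distrib]
  linarith [this]

end DUI

end
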